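import Pool.Agent.W650.HL.Stm

set_option autoImplicit false

namespace Pool.Agent.W667.HL

open Finset Pool.W650.HL

noncomputable section

variable {r : ℕ}

/-- The weighted inner product. -/
def ip (p f g : Fin r → ℝ) : ℝ := ∑ i, p i * (1 - p i) * (f i * g i)

/-- The transition operator. -/
def PP (p g : Fin r → ℝ) : Fin r → ℝ := fun i => ((∑ j, p j * g j) - p i * g i) / (1 - p i)

/-- A probability vector with entries strictly between zero and one. -/
structure Pr (p : Fin r → ℝ) : Prop where
  pos : ∀ i, 0 < p i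
  lt : ∀ i, p i < 1
  sum : ∑ i, p i = 1

variable {p : Fin r → ℝ}

theorem ip_comm (f g : Fin r → ℝ) : ip p f g = ip p g f := by
  unfold ip
  exact Finset.sum_congr rfl fun i _ => by ring

theorem ip_PP (hp : Pr p) (f g : Fin r → ℝ) :
    ip p f (PP p g) = (∑ i, p i * f i) * (∑ i, p i * g i) - ∑ i, p i ^ 2 * (f i * g i) := by
  unfold ip PP
  rw [Finset.sum_mul, ← Finset.sum_sub_distrib]
  refine Finset.sum_congr rfl fun i _ => ?_
  have h1 : (1 - p i) ≠ 0 := by have := hp.lt i; intro h; linarith
  field_simp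

theorem ip_PP_symm (hp : Pr p) (f g : Fin r → ℝ) : ip p f (PP p g) = ip p (PP p f) g := by
  rw [ip_comm (PP p f) g, ip_PP hp, ip_PP hp, mul_comm]
  congr 1
  exact Finset.sum_congr rfl fun i _ => by ring

theorem ip_one (g : Fin r → ℝ) :
    ip p (fun _ => 1) g = (∑ i, p i * g i) - ∑ i, p i ^ 2 * g i := by
  unfold ip
  rw [← Finset.sum_sub_distrib]
  exact Finset.sum_congr rfl fun i _ => by ring

theorem ip_one_PP (hp : Pr p) (g : Fin r → ℝ) :
    ip p (fun _ => 1) (PP p g) = ip p (fun _ => 1) g := by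
  rw [ip_PP hp, ip_one]
  simp [hp.sum]

theorem ip_one_one (hp : Pr p) : ip p (fun _ => 1) (fun _ => 1) = 1 - ∑ i, p i ^ 2 := by
  rw [ip_one]
  simp [hp.sum]

theorem ip_nonneg (hp : Pr p) (g : Fin r → ℝ) : 0 ≤ ip p g g := by
  unfold ip
  refine Finset.sum_nonneg fun i _ => ?_
  have h1 := hp.pos i
  have h2 := hp.lt i
  exact mul_nonneg (mul_nonneg h1.le (by linarith)) (mul_self_nonneg _)

theorem nonemp (hp : Pr p) : (univ : Finset (Fin r)).Nonempty := by
  rw [Finset.nonempty_iff_ne_empty]
  intro h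
  have := hp.sum
  rw [h] at this
  simp at this

theorem W_pos (hp : Pr p) : 0 < 1 - ∑ i, p i ^ 2 := by
  rw [← hp.sum, ← Finset.sum_sub_distrib]
  refine Finset.sum_pos (fun i _ => ?_) (nonemp hp)
  have h1 := hp.pos i
  have h2 := hp.lt i
  nlinarith

theorem T_pos (hp : Pr p) : 0 < ∑ i, p i ^ 2 :=
  Finset.sum_pos (fun i _ => pow_pos (hp.pos i) 2) (nonemp hp)

/-- Nonpositivity on the mean zero functions. -/
theorem ip_le (hp : Pr p) (g : Fin r → ℝ) :
    (1 - ∑ i, p i ^ 2) * ip p g (PP p g) ≤ (ip p (fun _ => 1) g) ^ 2 := by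
  rw [ip_PP hp, ip_one]
  have hT := T_pos hp
  have hW := W_pos hp
  have hcs : (∑ i, p i ^ 2 * g i) ^ 2 ≤ (∑ i, p i ^ 2) * (∑ i, p i ^ 2 * (g i * g i)) := by
    have h := Finset.sum_mul_sq_le_sq_mul_sq univ p (fun i => p i * g i)
    have e1 : ∑ i, p i * (p i * g i) = ∑ i, p i ^ 2 * g i :=
      Finset.sum_congr rfl fun i _ => by ring
    have e2 : ∑ i, (p i * g i) ^ 2 = ∑ i, p i ^ 2 * (g i * g i) :=
      Finset.sum_congr rfl fun i _ => by ring
    rw [e1, e2] at h
    exact h
  set s := ∑ i, p i * g i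
  set h := ∑ i, p i ^ 2 * g i
  set q := ∑ i, p i ^ 2 * (g i * g i)
  set T := ∑ i, p i ^ 2
  have key : 0 ≤ T * ((s - h) ^ 2 - (1 - T) * (s * s - q)) := by
    have h1 : (1 - T) * h ^ 2 ≤ (1 - T) * (T * q) := mul_le_mul_of_nonneg_left hcs hW.le
    have h2 := sq_nonneg (T * s - h)
    nlinarith
  have := nonneg_of_mul_nonneg_right key hT
  linarith

theorem row (hp : Pr p) (g : Fin r → ℝ) (i : Fin r) :
    PP p g i ^ 2 ≤ PP p (fun j => g j * g j) i := by
  unfold PP
  have h1 : 0 < 1 - p i := by have := hp.lt i; linarith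
  have e : ∀ f : Fin r → ℝ, (∑ j, f j) - f i = ∑ j ∈ univ.erase i, f j := by
    intro f
    rw [← Finset.add_sum_erase univ f (mem_univ i)]
    ring
  have e1 := e (fun j => p j * g j)
  have e2 := e (fun j => p j * (g j * g j))
  have e3 := e p
  rw [hp.sum] at e3
  rw [e1, e2, e3]
  have h3 : 0 < ∑ j ∈ univ.erase i, p j := by rw [← e3]; exact h1
  have hcs := Finset.sum_sq_le_sum_mul_sum_of_sq_eq_mul (univ.erase i)
    (r := fun j => p j * g j) (f := p) (g := fun j => p j * (g j * g j))
    (fun j _ => (hp.pos j).le)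
    (fun j _ => mul_nonneg (hp.pos j).le (mul_self_nonneg _)) (fun j _ => by ring)
  rw [div_pow, div_le_div_iff₀ (by positivity) h3]
  nlinarith

/-- The operator is a contraction. -/
theorem contr (hp : Pr p) (g : Fin r → ℝ) : ip p (PP p g) (PP p g) ≤ ip p g g := by
  have h1 : ip p (PP p g) (PP p g) ≤ ip p (fun _ => 1) (PP p (fun j => g j * g j)) := by
    unfold ip
    refine Finset.sum_le_sum fun i _ => ?_
    have h2 := hp.pos i
    have h3 := hp.lt i
    have h4 := row hp g i
    refine mul_le_mul_of_nonneg_left ?_ (mul_nonneg h2.le (by linarith))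
    nlinarith
  rw [ip_one_PP hp] at h1
  refine h1.trans (le_of_eq ?_)
  unfold ip
  exact Finset.sum_congr rfl fun i _ => by ring

theorem ip_add_left (f g k : Fin r → ℝ) (c : ℝ) :
    ip p (fun i => c * f i + g i) k = c * ip p f k + ip p g k := by
  unfold ip
  rw [Finset.mul_sum, ← Finset.sum_add_distrib]
  exact Finset.sum_congr rfl fun i _ => by ring

theorem ip_add_right (f g k : Fin r → ℝ) (c : ℝ) :
    ip p k (fun i => c * f i + g i) = c * ip p k f + ip p k g := by
  rw [ip_comm, ip_add_left, ip_comm f, ip_comm g]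

theorem PP_add (f g : Fin r → ℝ) (c : ℝ) :
    PP p (fun i => c * f i + g i) = fun i => c * PP p f i + PP p g i := by
  funext i
  unfold PP
  have e : ∑ j, p j * (c * f j + g j) = c * (∑ j, p j * f j) + ∑ j, p j * g j := by
    rw [Finset.mul_sum, ← Finset.sum_add_distrib]
    exact Finset.sum_congr rfl fun i _ => by ring
  rw [e]
  ring

theorem PP_one (hp : Pr p) : PP p (fun _ => 1) = fun _ => 1 := by
  funext i
  unfold PP
  have h1 : (1 - p i) ≠ 0 := by have := hp.lt i; intro h; linarith
  simp only [mul_one, hp.sum]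
  exact div_self h1

theorem lower (hp : Pr p) (X : ℝ) (hX : ∀ i, p i ≤ X * (1 - p i)) (f : Fin r → ℝ) :
    - ip p f (PP p f) ≤ X * ip p f f := by
  rw [ip_PP hp]
  have h1 : ∑ i, p i ^ 2 * (f i * f i) ≤ X * ip p f f := by
    unfold ip
    rw [Finset.mul_sum]
    refine Finset.sum_le_sum fun i _ => ?_
    have h2 := hp.pos i
    have h3 := hX i
    have h4 := mul_self_nonneg (f i)
    have h5 : p i ^ 2 * (f i * f i) = p i * (f i * f i) * p i := by ring
    have h6 : X * (p i * (1 - p i) * (f i * f i)) = p i * (f i * f i) * (X * (1 - p i)) := by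
      ring
    rw [h5, h6]
    exact mul_le_mul_of_nonneg_left h3 (mul_nonneg h2.le h4)
  have h2 := mul_self_nonneg (∑ i, p i * f i)
  linarith

/-- The strong contraction on mean zero functions. -/
theorem strong (hp : Pr p) (X : ℝ) (hX0 : 0 < X) (hX : ∀ i, p i ≤ X * (1 - p i))
    (g : Fin r → ℝ) (hg : ip p (fun _ => 1) g = 0) :
    ip p (PP p g) (PP p g) ≤ X ^ 2 * ip p g g := by
  have hW := W_pos hp
  have h1 : ip p (fun _ => 1) (fun i => X * g i + PP p g i) = 0 := by
    rw [ip_add_right, hg, ip_one_PP hp, hg]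
    ring
  have h2 := ip_le hp (fun i => X * g i + PP p g i)
  rw [h1] at h2
  have h3 : ip p (fun i => X * g i + PP p g i) (PP p (fun i => X * g i + PP p g i)) ≤ 0 := by
    by_contra hh
    push Not at hh
    have := mul_pos hW hh
    linarith
  rw [PP_add, ip_add_left, ip_add_right, ip_add_right, ip_PP_symm hp g (PP p g)] at h3
  have h4 := lower hp X hX (PP p g)
  have h5 := lower hp X hX g
  have h6 : X * ip p (PP p g) (PP p g) ≤ X * (X ^ 2 * ip p g g) := by nlinarith
  exact le_of_mul_le_mul_left h6 hX0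

theorem ip_iter (hp : Pr p) (f : Fin r → ℝ) (k : ℕ) : ∀ l : ℕ,
    ip p f ((PP p)^[k + l] f) = ip p ((PP p)^[k] f) ((PP p)^[l] f) := by
  induction k with
  | zero => intro l; simp
  | succ k ih =>
    intro l
    have e : k + 1 + l = k + (l + 1) := by ring
    rw [e, ih (l + 1), Function.iterate_succ_apply', Function.iterate_succ_apply',
      ip_PP_symm hp]

theorem one_iter (hp : Pr p) (f : Fin r → ℝ) (k : ℕ) :
    ip p (fun _ => 1) ((PP p)^[k] f) = ip p (fun _ => 1) f := by
  induction k with
  | zero => rfl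
  | succ k ih => rw [Function.iterate_succ_apply', ip_one_PP hp, ih]

/-- The main estimate. -/
theorem main (hp : Pr p) (X : ℝ) (hX0 : 0 < X) (hX : ∀ i, p i ≤ X * (1 - p i))
    (f g : Fin r → ℝ) (hf : f = fun i => 1 / (1 - ∑ i, p i ^ 2) * 1 + g i)
    (hg : ip p (fun _ => 1) g = 0) (n : ℕ) (hn : 3 ≤ n) :
    ip p f ((PP p)^[n] f) ≤ 1 / (1 - ∑ i, p i ^ 2) + X ^ 4 * ip p g g := by
  have hW := W_pos hp
  have hgg := ip_nonneg hp g
  have hf1 : ip p (fun _ => 1) f = 1 := by
    rw [hf, ip_add_right, hg, ip_one_one hp]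
    field_simp
    ring
  rcases Nat.even_or_odd' n with ⟨k, hk | hk⟩
  · have hk2 : 2 ≤ k := by omega
    have e1 : n = k + k := by omega
    rw [e1, ip_iter hp]
    have hmono : ∀ k, 2 ≤ k →
        ip p ((PP p)^[k] f) ((PP p)^[k] f) ≤ ip p ((PP p)^[2] f) ((PP p)^[2] f) := by
      intro k hk
      induction k, hk using Nat.le_induction with
      | base => exact le_rfl
      | succ k _ ih =>
        rw [Function.iterate_succ_apply']
        exact (contr hp _).trans ih
    refine (hmono k hk2).trans ?_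
    have e2 : (PP p)^[2] f = fun i => 1 / (1 - ∑ i, p i ^ 2) * 1 + PP p (PP p g) i := by
      change PP p (PP p f) = _
      rw [hf, PP_add, PP_one hp, PP_add, PP_one hp]
    have h0 : ip p (fun _ => 1) (PP p (PP p g)) = 0 := by
      rw [ip_one_PP hp, ip_one_PP hp, hg]
    have h0' : ip p (PP p (PP p g)) (fun _ => 1) = 0 := by rw [ip_comm]; exact h0
    rw [e2, ip_add_left, ip_add_right, ip_add_right, h0, h0', ip_one_one hp]
    have hPg : ip p (fun _ => 1) (PP p g) = 0 := by rw [ip_one_PP hp, hg]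
    have s1 := strong hp X hX0 hX g hg
    have s2 := strong hp X hX0 hX (PP p g) hPg
    have s3 : X ^ 2 * ip p (PP p g) (PP p g) ≤ X ^ 2 * (X ^ 2 * ip p g g) :=
      mul_le_mul_of_nonneg_left s1 (by positivity)
    have e3 : 1 / (1 - ∑ i, p i ^ 2) * (1 / (1 - ∑ i, p i ^ 2) * (1 - ∑ i, p i ^ 2) + 0) =
        1 / (1 - ∑ i, p i ^ 2) := by
      field_simp
      ring
    rw [e3]
    nlinarith
  · have e1 : n = k + (k + 1) := by omega
    rw [e1, ip_iter hp, Function.iterate_succ_apply']
    have h := ip_le hp ((PP p)^[k] f)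
    rw [one_iter hp, hf1] at h
    have h2 : ip p ((PP p)^[k] f) (PP p ((PP p)^[k] f)) ≤ 1 / (1 - ∑ i, p i ^ 2) := by
      rw [le_div_iff₀ hW]
      linarith
    have h3 : 0 ≤ X ^ 4 * ip p g g := by positivity
    linarith

theorem pathup (h : MFACTS) : PATHUP := by
  intro r a lam hg X hX n hn
  obtain ⟨hW, hpp, hmm, hm1, hb1, hb, hv, hE⟩ := h r a lam hg
  have hp : Pr (pp a lam) := ⟨fun i => (hpp i).1, fun i => (hpp i).2.1, hg.eqn⟩
  have hl := hg.lam_pos
  have hla : ∀ i, 0 < lam + a i := fun i => add_pos hl (hg.pos i)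
  have h1p : ∀ i, 1 - pp a lam i = lam / (lam + a i) := by
    intro i
    have := (hla i).ne'
    unfold pp
    field_simp
    ring
  have h1p0 : ∀ i, 1 - pp a lam i ≠ 0 := by
    intro i
    rw [h1p]
    exact (div_pos hl (hla i)).ne'
  have hphi : ∀ i, phi a lam i * (1 - pp a lam i) = 1 := by
    intro i
    have := (hla i).ne'
    rw [h1p]
    unfold phi
    field_simp
  have hXp : ∀ i, pp a lam i ≤ X * (1 - pp a lam i) := by
    intro i
    have e : pp a lam i = a i / lam * (1 - pp a lam i) := by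
      have := (hla i).ne'
      rw [h1p]
      unfold pp
      field_simp
    have h2 : 0 < 1 - pp a lam i := by rw [h1p]; exact div_pos hl (hla i)
    calc pp a lam i = a i / lam * (1 - pp a lam i) := e
      _ ≤ X * (1 - pp a lam i) := mul_le_mul_of_nonneg_right (hX i) h2.le
  have hX0 : 0 < X := by
    obtain ⟨i, _⟩ := nonemp hp
    exact lt_of_lt_of_le (div_pos (hg.pos i) hl) (hX i)
  have hap : ∀ i, a i * (1 - pp a lam i) = lam * pp a lam i := by
    intro i
    have := (hla i).ne'
    rw [h1p]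
    unfold pp
    field_simp
  have hU : ∀ n i, U a n i = lam ^ n * ((PP (pp a lam))^[n] (phi a lam) i) *
      (1 - pp a lam i) := by
    intro n
    induction n with
    | zero =>
      intro i
      simp only [U, Function.iterate_zero, id_eq, pow_zero, one_mul]
      exact (hphi i).symm
    | succ n ih =>
      intro i
      have e : U a (n + 1) i = (∑ j, a j * U a n j) - a i * U a n i := by
        unfold U
        rw [Function.iterate_succ_apply']
        rfl
      rw [e, Function.iterate_succ_apply']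
      have e2 : ∀ j, a j * U a n j = lam ^ (n + 1) *
          (pp a lam j * (PP (pp a lam))^[n] (phi a lam) j) := by
        intro j
        rw [ih j]
        have := hap j
        calc a j * (lam ^ n * (PP (pp a lam))^[n] (phi a lam) j * (1 - pp a lam j))
            = lam ^ n * (PP (pp a lam))^[n] (phi a lam) j * (a j * (1 - pp a lam j)) := by ring
          _ = lam ^ (n + 1) * (pp a lam j * (PP (pp a lam))^[n] (phi a lam) j) := by
            rw [this]; ring
      have e3 : ∑ j, a j * U a n j = lam ^ (n + 1) *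
          ∑ j, pp a lam j * (PP (pp a lam))^[n] (phi a lam) j := by
        rw [Finset.mul_sum]
        exact Finset.sum_congr rfl fun j _ => e2 j
      rw [e2 i, e3]
      unfold PP
      have := h1p0 i
      field_simp
  have hsum : ∑ i, a i * U a n i = lam ^ (n + 1) *
      ip (pp a lam) (phi a lam) ((PP (pp a lam))^[n] (phi a lam)) := by
    unfold ip
    rw [Finset.mul_sum]
    refine Finset.sum_congr rfl fun i _ => ?_
    rw [hU n i]
    have h1 := hap i
    have h2 := hphi i
    calc a i * (lam ^ n * (PP (pp a lam))^[n] (phi a lam) i * (1 - pp a lam i))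
        = lam ^ n * (PP (pp a lam))^[n] (phi a lam) i * (a i * (1 - pp a lam i)) := by ring
      _ = lam ^ (n + 1) * (PP (pp a lam))^[n] (phi a lam) i * pp a lam i *
          (phi a lam i * (1 - pp a lam i)) := by rw [h1, h2]; ring
      _ = _ := by ring
  have hWW : WW a lam = 1 - ∑ i, pp a lam i ^ 2 := rfl
  have hmW : ∀ i, mm a lam i * WW a lam = pp a lam i * (1 - pp a lam i) := by
    intro i
    unfold mm
    field_simp
  have hipE : ∀ f k : Fin r → ℝ,
      ip (pp a lam) f k = WW a lam * EE a lam (fun i => f i * k i) := by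
    intro f k
    unfold ip EE
    rw [Finset.mul_sum]
    refine Finset.sum_congr rfl fun i _ => ?_
    rw [← hmW i]
    ring
  have hm := main hp X hX0 hXp (phi a lam) (fun i => a i / lam - bb a lam) (by
      funext i
      rw [← hWW, ← hb1]
      unfold phi
      ring) (by
      rw [hipE]
      have : EE a lam (fun i => 1 * (a i / lam - bb a lam)) = 0 := by
        have e : EE a lam (fun i => 1 * (a i / lam - bb a lam)) =
            bb a lam - bb a lam * ∑ i, mm a lam i := by
          unfold bb EE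
          rw [Finset.mul_sum, ← Finset.sum_sub_distrib]
          exact Finset.sum_congr rfl fun i _ => by ring
        rw [e, hm1]
        ring
      rw [this, mul_zero]) n hn
  have hgg : ip (pp a lam) (fun i => a i / lam - bb a lam) (fun i => a i / lam - bb a lam) =
      WW a lam * ((1 + bb a lam) * vv a lam) := by
    rw [hipE, ← hE]
    congr 2
    funext i
    ring
  rw [hgg, ← hWW, ← hb1] at hm
  rw [hsum]
  have hln : 0 < lam ^ (n + 1) := pow_pos hl _
  have e4 : WW a lam * (1 + bb a lam) = 1 := by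
    rw [hb1]
    field_simp
  have e5 : lam ^ (n + 1) * WW a lam *
      ((1 + bb a lam) ^ 2 + X ^ 4 * ((1 + bb a lam) * vv a lam)) =
      lam ^ (n + 1) * ((WW a lam * (1 + bb a lam)) * (1 + bb a lam) +
        X ^ 4 * (WW a lam * ((1 + bb a lam) * vv a lam))) := by ring
  rw [e5, e4, one_mul]
  exact mul_le_mul_of_nonneg_left hm hln.le

end

end Pool.Agent.W667.HL
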